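import Pool.Agent.Helper24.N9.Deg2

/-! MP_9b91d1_co, rows E0V and NE0. -/

open scoped RealInnerProductSpace Topology

namespace Pool.Agent.Helper30.N9

namespace H27

/-- two arcs with the same first end in the same direction overlap -/
theorem overlap {x y z : E3} (hx : ‖x‖ = 1) (hz : ‖z‖ = 1)
    (n2 : x ≠ z) (n2' : x ≠ -z) {γ δ : ℝ} (hδ : 0 < δ)
    (h : z = γ • x + δ • y) : ∃ w, w ∈ arc x y ∧ w ∈ arc x z ∧ w ≠ x := by
  obtain ⟨t, ht, ht1⟩ : ∃ t : ℝ, 0 < t ∧ 0 < 1 + t * γ := by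
    refine ⟨1 / (1 + |γ|), by positivity, ?_⟩
    have h5 : 0 < 1 + |γ| := by positivity
    have h6 : -(|γ|) ≤ γ := neg_abs_le γ
    have h7 : 1 + 1 / (1 + |γ|) * γ = (1 + |γ| + γ) / (1 + |γ|) := by
      field_simp
    rw [h7]
    apply div_pos _ h5
    linarith
  obtain ⟨p0, p1, p2, p3⟩ := pt_props hx hz n2 n2' ht
  refine ⟨_, ?_, p1, p2⟩
  rw [nrm_mem_arc p0]
  refine ⟨1 + t * γ, t * δ, ht1.le, by positivity, ?_⟩
  rw [h, smul_add, smul_smul, smul_smul, add_smul, one_smul, add_assoc]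

variable {V : Type} [Fintype V] [DecidableEq V] {M : PlaneGraph V}

theorem qne {p : V → E3} (hp : M.InC p) (d : M.G.Dart) : p d.fst ≠ p d.snd :=
  fun h => d.adj.ne (hp.inj h)

/-- two darts from one vertex in the same direction are equal -/
theorem same_dir {p : V → E3} (hp : M.InC p) {d e : M.G.Dart} (hf : d.fst = e.fst) {n : E3}
    {c c' : ℝ} (h1 : crs (p d.fst) (p d.snd) = c • n) (h2 : crs (p e.fst) (p e.snd) = c' • n)
    (hc : 0 < c * c') : d = e := by
  have hx := hp.unit d.fst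
  have hy := hp.unit d.snd
  have hz := hp.unit e.snd
  rw [← hf] at h2
  have hc0 : c ≠ 0 := by rintro rfl; simp at hc
  have hc0' : c' ≠ 0 := by rintro rfl; simp at hc
  have hcc : 0 < c' / c := by
    have : c' / c = (c * c') / (c * c) := by field_simp
    rw [this]
    exact div_pos hc (mul_self_pos.mpr hc0)
  have hrel : crs (p d.fst) (p e.snd) = (c' / c) • crs (p d.fst) (p d.snd) := by
    rw [h1, h2, smul_smul, div_mul_cancel₀ _ hc0]
  have hdet : det3 (p d.fst) (p d.snd) (p e.snd) = 0 := by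
    have h3 : ⟪crs (p d.fst) (p e.snd), p e.snd⟫ = 0 := by
      rw [crs_inner]; simp only [det3]; ring
    rw [hrel, real_inner_smul_left, crs_inner] at h3
    rcases mul_eq_zero.mp h3 with h | h
    · exact absurd h hcc.ne'
    · exact h
  obtain ⟨γ, δ, hab⟩ : ∃ γ δ : ℝ, p e.snd = γ • p d.fst + δ • p d.snd :=
    ⟨_, _, span_det hx hy (qne hp d) (hp.ne_neg d) hdet⟩
  have hpos := crs_pos hx hy (qne hp d) (hp.ne_neg d)
  have hδ : 0 < δ := by
    have h4 : ⟪crs (p d.fst) (p d.snd), crs (p d.fst) (p e.snd)⟫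
        = δ * ⟪crs (p d.fst) (p d.snd), crs (p d.fst) (p d.snd)⟫ := by
      rw [hab]; exact crs_comb _ _ _ _ _
    rw [hrel, real_inner_smul_right] at h4
    have h5 := mul_right_cancel₀ hpos.ne' h4
    rw [← h5]; exact hcc
  have hne := qne hp e
  have hnn := hp.ne_neg e
  rw [← hf] at hne hnn
  obtain ⟨w, w1, w2, w3⟩ := overlap hx hz hne hnn hδ hab
  by_contra hde
  have hedge : d.edge ≠ e.edge := by
    intro h'
    rw [SimpleGraph.dart_edge_eq_iff] at h'
    rcases h' with h' | h'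
    · exact hde h'
    · have : d.fst = e.snd := by rw [h']; rfl
      rw [hf] at this
      exact e.adj.ne this
  have w2' : w ∈ arc (p e.fst) (p e.snd) := by rw [← hf]; exact w2
  obtain ⟨v, hv1, hv2, hv3⟩ := hp.embed d e hedge w w1 w2'
  rcases PlaneGraph.mem_edge hv1 with h' | h'
  · exact w3 (by rw [hv3, h'])
  · rcases PlaneGraph.mem_edge hv2 with h'' | h''
    · have : d.snd = d.fst := by rw [← h', h'', hf]
      exact d.adj.ne this.symm
    · apply hde
      have h6 : d.snd = e.snd := by rw [← h', h'']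
      exact SimpleGraph.Dart.ext _ _ (Prod.ext hf h6)

/-- the direction of a meridional dart -/
theorem mer_dir {p : V → E3} (hp : M.InC p) {a : E3} (ha : ‖a‖ = 1) {d : M.G.Dart}
    (hm : det3 a (p d.fst) (p d.snd) = 0) (h1 : p d.fst ≠ a) (h2 : p d.fst ≠ -a) :
    ∃ α : ℝ, α ≠ 0 ∧ crs (p d.fst) (p d.snd) = α • crs (p d.fst) a := by
  have hx := hp.unit d.fst
  have hax : a ≠ p d.fst := fun h => h1 h.symm
  have hax' : a ≠ -p d.fst := by intro h; apply h2; rw [h, neg_neg]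
  obtain ⟨α, β, hab⟩ : ∃ α β : ℝ, p d.snd = α • a + β • p d.fst :=
    ⟨_, _, span_det ha hx hax hax' hm⟩
  have hcr : crs (p d.fst) (p d.snd) = α • crs (p d.fst) a := by
    rw [hab]
    ext i
    fin_cases i <;> simp [crs] <;> ring
  refine ⟨α, ?_, hcr⟩
  rintro rfl
  have hpos := crs_pos hx (hp.unit d.snd) (qne hp d) (hp.ne_neg d)
  rw [hcr, zero_smul, inner_zero_left] at hpos
  exact lt_irrefl _ hpos

theorem E0_symm {L : Type} {l : M.Face → L} {d : M.G.Dart} (h : M.E0 l d) : M.E0 l d.symm := by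
  unfold PlaneGraph.E0 at h ⊢
  rw [SimpleGraph.Dart.symm_symm]
  exact h.symm

end H27

open H27 in
theorem st_E0V : ST_E0V := by
  intro V _ _ M L p a l s t hp F
  obtain ⟨d, hd⟩ := F.ex
  by_contra hcon
  push Not at hcon
  have h1 : ∀ v, M.OnE l v → v = s ∨ v = t := by
    intro v hv
    by_cases h : v = s
    · exact Or.inl h
    · exact Or.inr (hcon v hv h)
  have hf := h1 d.fst ⟨d, rfl, hd⟩
  have hs := h1 d.snd ⟨d.symm, rfl, E0_symm hd⟩
  rcases hf with hf | hf <;> rcases hs with hs | hs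
  · exact d.adj.ne (hf.trans hs.symm)
  · apply hp.ne_neg d
    rw [hf, hs, F.ps, F.pt, neg_neg]
  · apply hp.ne_neg d
    rw [hf, hs, F.ps, F.pt]
  · exact d.adj.ne (hf.trans hs.symm)

open H27 in
theorem st_NE0 : ST_NE0 := by
  intro V _ _ M L p h a l s t k th r lam hS F _
  by_contra hcon
  push Not at hcon
  obtain ⟨v0, ⟨d1, hd1, _⟩, hvs, hvt⟩ := st_E0V V M L p a l s t hS.inc F
  obtain ⟨d2, hd2, h21, _⟩ := PlaneGraph.exists_third hS.c3 v0 d1 d1
  obtain ⟨d3, hd3, h31, h32⟩ := PlaneGraph.exists_third hS.c3 v0 d1 d2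
  have key : ∀ d : M.G.Dart, d.fst = v0 → ∃ α : ℝ, α ≠ 0 ∧
      crs (p d.fst) (p d.snd) = α • crs (p v0) a := by
    intro d hd
    have := mer_dir hS.inc F.ua (F.mer d (hcon d))
      (by rw [hd, ← F.ps]; exact fun h => hvs (hS.inc.inj h))
      (by rw [hd, ← F.pt]; exact fun h => hvt (hS.inc.inj h))
    rw [hd] at this
    rw [hd]
    exact this
  obtain ⟨α1, a1, e1⟩ := key d1 hd1
  obtain ⟨α2, a2, e2⟩ := key d2 hd2
  obtain ⟨α3, a3, e3⟩ := key d3 hd3
  have n12 : ¬ 0 < α1 * α2 := fun h => h21 (same_dir hS.inc (hd1.trans hd2.symm) e1 e2 h).symm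
  have n13 : ¬ 0 < α1 * α3 := fun h => h31 (same_dir hS.inc (hd1.trans hd3.symm) e1 e3 h).symm
  have n23 : ¬ 0 < α2 * α3 := fun h => h32 (same_dir hS.inc (hd2.trans hd3.symm) e2 e3 h).symm
  rcases lt_or_gt_of_ne a1 with b1 | b1 <;> rcases lt_or_gt_of_ne a2 with b2 | b2 <;>
    rcases lt_or_gt_of_ne a3 with b3 | b3
  · exact n12 (mul_pos_of_neg_of_neg b1 b2)
  · exact n12 (mul_pos_of_neg_of_neg b1 b2)
  · exact n13 (mul_pos_of_neg_of_neg b1 b3)
  · exact n23 (mul_pos b2 b3)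
  · exact n23 (mul_pos_of_neg_of_neg b2 b3)
  · exact n13 (mul_pos b1 b3)
  · exact n12 (mul_pos b1 b2)
  · exact n12 (mul_pos b1 b2)

end Pool.Agent.Helper30.N9
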