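import Pool.Agent.Helper27.N9.E0v
import Pool.Agent.Helper30.N9.Cx3

/-! MP_9b91d1_co, row FAN1: a planar full stress gives a fan. -/

open scoped RealInnerProductSpace Topology

namespace Pool.Agent.Helper30.N9

namespace H27

theorem crs_swap (a b : E3) : crs b a = - crs a b := by
  ext i; fin_cases i <;> simp [crs] <;> ring

/-- two unit vectors orthogonal to two independent vectors are equal or opposite -/
theorem perp_two {n1 n2 x y : E3} (hn : crs n1 n2 ≠ 0) (hx : ‖x‖ = 1) (hy : ‖y‖ = 1)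
    (h1 : ⟪n1, x⟫ = 0) (h2 : ⟪n2, x⟫ = 0) (h3 : ⟪n1, y⟫ = 0) (h4 : ⟪n2, y⟫ = 0) :
    x = y ∨ x = -y := by
  obtain ⟨s, hs⟩ : ∃ s : ℝ, x = s • crs n1 n2 := ⟨_, par_of_crs hn h1 h2⟩
  obtain ⟨t, ht⟩ : ∃ t : ℝ, y = t • crs n1 n2 := ⟨_, par_of_crs hn h3 h4⟩
  have ht0 : t ≠ 0 := by
    rintro rfl
    rw [zero_smul] at ht
    rw [ht, norm_zero] at hy
    norm_num at hy
  have e : x = (s / t) • y := by
    rw [ht, smul_smul, div_mul_cancel₀ _ ht0, hs]
  have h7 : |s / t| = 1 := by
    have := congrArg norm e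
    rw [norm_smul, hx, hy, mul_one, Real.norm_eq_abs] at this
    exact this.symm
  rcases (abs_eq zero_le_one).mp h7 with h8 | h8
  · left; rw [e, h8, one_smul]
  · right; rw [e, h8, neg_smul, one_smul]

variable {V : Type} [Fintype V] [DecidableEq V] {M : PlaneGraph V}

/-- the axis of a planar stress is a vertex -/
theorem axis_vertex (hA : ST_AXV) {p : V → E3} (hp : M.InC p) {a : E3} (ha : ‖a‖ = 1)
    {om : M.G.Dart → ℝ} (hw : M.Wt om)
    (hm : ∀ d, om d ≠ 0 → det3 a (p d.fst) (p d.snd) = 0)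
    (heq : ∀ v, M.EqAt p om v) {d e : M.G.Dart} (hd : om d ≠ 0) (he : om e ≠ 0)
    (hde : crs (crs (p d.fst) (p d.snd)) (crs (p e.fst) (p e.snd)) ≠ 0) :
    ∃ s, p s = a := by
  obtain ⟨d', hd', hda, hd1, hd2⟩ := hA V M p a om hp ha hw hm (fun v _ _ => heq v) d hd
  obtain ⟨e', he', hea, he1, he2⟩ := hA V M p a om hp ha hw hm (fun v _ _ => heq v) e he
  by_cases hedge : d'.edge = e'.edge
  · exfalso
    rw [← crs_inner] at hd1 hd2 he1 he2
    have h1 : ⟪crs (p e.fst) (p e.snd), p d'.fst⟫ = 0 ∧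
        ⟪crs (p e.fst) (p e.snd), p d'.snd⟫ = 0 := by
      rw [SimpleGraph.dart_edge_eq_iff] at hedge
      rcases hedge with h | h
      · rw [h]; exact ⟨he1, he2⟩
      · rw [h]; exact ⟨he2, he1⟩
    rcases perp_two hde (hp.unit d'.fst) (hp.unit d'.snd) hd1 h1.1 hd2 h1.2 with h | h
    · exact qne hp d' h
    · exact hp.ne_neg d' h
  · obtain ⟨v, _, _, hv⟩ := hp.embed d' e' hedge a hda hea
    exact ⟨v, hv.symm⟩

/-- at a vertex in equilibrium with meridional darts there are darts in both directions -/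
theorem both_dirs {p : V → E3} (hp : M.InC p) {a : E3} (ha : ‖a‖ = 1)
    {om : M.G.Dart → ℝ} (hw : M.Wt om) {d : M.G.Dart}
    (hm : ∀ e : M.G.Dart, e.fst = d.fst → om e ≠ 0 → det3 a (p e.fst) (p e.snd) = 0)
    (heq : M.EqAt p om d.fst) (hd : om d ≠ 0) (h1 : p d.fst ≠ a) (h2 : p d.fst ≠ -a) :
    (∃ e : M.G.Dart, om e ≠ 0 ∧ e.fst = d.fst ∧ ∃ c : ℝ, 0 < c ∧
      crs (p e.fst) (p e.snd) = c • crs (p e.fst) a) ∧
    (∃ e : M.G.Dart, om e ≠ 0 ∧ e.fst = d.fst ∧ ∃ c : ℝ, 0 < c ∧
      crs (p e.fst) (p e.snd) = c • crs a (p e.fst)) := by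
  have hx := hp.unit d.fst
  have hXa : 0 < ⟪crs (p d.fst) a, crs (p d.fst) a⟫ :=
    crs_pos hx ha h1 h2
  have hdir : ∀ e : M.G.Dart, ∃ α : ℝ, e.fst = d.fst → om e ≠ 0 → α ≠ 0 ∧
      crs (p e.fst) (p e.snd) = α • crs (p d.fst) a := by
    intro e
    by_cases hef : e.fst = d.fst
    · by_cases hoe : om e = 0
      · exact ⟨0, fun _ h => absurd hoe h⟩
      · obtain ⟨α, hα, hc⟩ := mer_dir hp ha (hm e hef hoe) (by rw [hef]; exact h1)
          (by rw [hef]; exact h2)
        exact ⟨α, fun _ _ => ⟨hα, by rw [hc, hef]⟩⟩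
    · exact ⟨0, fun h => absurd h hef⟩
  choose α hα using hdir
  have hsum : ∑ e ∈ Finset.univ.filter (fun d' : M.G.Dart => d'.fst = d.fst), om e * α e = 0 := by
    have hE := heq
    unfold PlaneGraph.EqAt at hE
    have h2 := congrArg (fun z => ⟪crs (p d.fst) a, z⟫) hE
    simp only [inner_zero_right] at h2
    rw [inner_sum] at h2
    have h3 : ∑ e ∈ Finset.univ.filter (fun d' : M.G.Dart => d'.fst = d.fst),
        ⟪crs (p d.fst) a, om e • crs (p e.fst) (p e.snd)⟫
        = (∑ e ∈ Finset.univ.filter (fun d' : M.G.Dart => d'.fst = d.fst), om e * α e)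
          * ⟪crs (p d.fst) a, crs (p d.fst) a⟫ := by
      rw [Finset.sum_mul]
      apply Finset.sum_congr rfl
      intro e he
      have hef : e.fst = d.fst := by simpa using he
      rw [real_inner_smul_right]
      by_cases hoe : om e = 0
      · rw [hoe]; ring
      · rw [(hα e hef hoe).2, real_inner_smul_right]; ring
    rw [h3] at h2
    rcases mul_eq_zero.mp h2 with h | h
    · exact h
    · exact absurd h hXa.ne'
  constructor
  · by_contra hcon
    push Not at hcon
    have h3 : ∀ e ∈ Finset.univ.filter (fun d' : M.G.Dart => d'.fst = d.fst),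
        om e * α e ≤ 0 := by
      intro e he
      have hef : e.fst = d.fst := by simpa using he
      by_cases hoe : om e = 0
      · rw [hoe, zero_mul]
      · apply mul_nonpos_of_nonneg_of_nonpos (hw.nonneg e)
        by_contra hneg
        push Not at hneg
        apply hcon e hoe hef (α e) hneg
        rw [(hα e hef hoe).2, hef]
    have h4 := (Finset.sum_eq_zero_iff_of_nonpos h3).mp hsum d (by simp)
    rcases mul_eq_zero.mp h4 with h | h
    · exact hd h
    · exact (hα d rfl hd).1 h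
  · by_contra hcon
    push Not at hcon
    have h3 : ∀ e ∈ Finset.univ.filter (fun d' : M.G.Dart => d'.fst = d.fst),
        0 ≤ om e * α e := by
      intro e he
      have hef : e.fst = d.fst := by simpa using he
      by_cases hoe : om e = 0
      · rw [hoe, zero_mul]
      · apply mul_nonneg (hw.nonneg e)
        by_contra hneg
        push Not at hneg
        apply hcon e hoe hef (-α e) (by linarith)
        rw [(hα e hef hoe).2, hef, crs_swap (p d.fst) a, smul_neg, neg_smul, neg_neg]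
    have h4 := (Finset.sum_eq_zero_iff_of_nonneg h3).mp hsum d (by simp)
    rcases mul_eq_zero.mp h4 with h | h
    · exact hd h
    · exact (hα d rfl hd).1 h

end H27

open H27 in
theorem st_FAN1 (hL : ST_LIFT) (hMt : ST_MAXT) (hV : ST_VCL) (hA : ST_AXV) : ST_FAN1 := by
  intro V _ _ M p h a om hS hcon ha hw heq hm hde
  obtain ⟨d1, e1, hd1, he1, hde1⟩ := hde
  have hp := hS.inc
  obtain ⟨s, hs⟩ := axis_vertex hA hp ha hw hm heq hd1 he1 hde1
  obtain ⟨t, ht⟩ := axis_vertex hA hp (a := -a) (by rw [norm_neg]; exact ha) hw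
    (fun d hd => by
      have := hm d hd
      simp only [det3, PiLp.neg_apply] at this ⊢
      linarith) heq hd1 he1 hde1
  obtain ⟨x, hx⟩ := hL V M hcon (fun _ => True) (fun d => om d • crs (p d.fst) (p d.snd))
    (by
      intro d
      show om d.symm • crs (p d.snd) (p d.fst) = - (om d • crs (p d.fst) (p d.snd))
      rw [hw.symm, crs_swap (p d.fst), smul_neg])
    (by intro d hd; exact absurd ⟨trivial, trivial⟩ hd)
    (by intro v _; exact heq v)
    (by intro u _ a' b' ha' _; exact absurd trivial ha')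
  have hx' : ∀ d : M.G.Dart, x (M.fc d) - x (M.fc d.symm)
      = om d • crs (p d.fst) (p d.snd) := fun d => hx d trivial trivial
  have hcn : ∀ d : M.G.Dart, crs (p d.fst) (p d.snd) ≠ 0 := by
    intro d h0
    have := crs_pos (hp.unit d.fst) (hp.unit d.snd) (qne hp d) (hp.ne_neg d)
    rw [h0, inner_zero_left] at this
    exact lt_irrefl _ this
  have hE : ∀ d : M.G.Dart, M.E0 x d ↔ om d ≠ 0 := by
    intro d
    unfold PlaneGraph.E0
    rw [← sub_ne_zero, hx' d, ne_eq, smul_eq_zero, not_or]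
    exact ⟨fun h => h.1, fun h => ⟨h, hcn d⟩⟩
  refine ⟨E3, x, s, t, ?_, hE⟩
  refine ⟨ha, hs, ht, fun d hd => hm d ((hE d).mp hd), ?_, ?_, ?_, ⟨d1, (hE d1).mpr hd1⟩⟩
  · -- convexity
    intro d e hd he
    have hod := (hE d).mp hd
    have hpos : 0 < om d := lt_of_le_of_ne (hw.nonneg d) (Ne.symm hod)
    have hkey : 0 ≤ ⟪om d • crs (p d.fst) (p d.snd), p e.fst⟫ := by
      apply hV V M p h hS e
      intro z hz
      have h1 := (hMt V M p h hS (fun _ => True) (by
        intro d' e' hd' _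
        exact absurd trivial hd'.2) om hw x (fun d' _ => hx' d') (M.fc e) (M.fc d.symm)
        trivial trivial z hz).1
      rw [he] at h1
      rw [← hx' d, inner_sub_left]
      linarith
    rw [real_inner_smul_left, crs_inner] at hkey
    exact (mul_nonneg_iff_of_pos_left hpos).mp hkey
  · intro d hd h1 h2
    obtain ⟨e, heo, hef, c, hc, hcr⟩ := (both_dirs hp ha hw (fun e _ he => hm e he)
      (heq d.fst) ((hE d).mp hd) (by rw [← hs]; exact fun h => h1 (hp.inj h))
      (by rw [← ht]; exact fun h => h2 (hp.inj h))).1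
    exact ⟨e, (hE e).mpr heo, hef, c, hc, hcr⟩
  · intro d hd h1 h2
    obtain ⟨e, heo, hef, c, hc, hcr⟩ := (both_dirs hp ha hw (fun e _ he => hm e he)
      (heq d.fst) ((hE d).mp hd) (by rw [← hs]; exact fun h => h1 (hp.inj h))
      (by rw [← ht]; exact fun h => h2 (hp.inj h))).2
    exact ⟨e, (hE e).mpr heo, hef, c, hc, hcr⟩

end Pool.Agent.Helper30.N9
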