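import Pool.Agent.Helper30.N9.Sheet
import Mathlib.Geometry.Euclidean.Angle.Unoriented.TriangleInequality

/-! MP_9b91d1_co, row HEMIQ: a closed spherical polygon of length < 2 pi lies in an open
hemisphere. -/

open scoped RealInnerProductSpace Topology

namespace Pool.Agent.Helper27.N9

open Pool.Agent.Helper30.N9

theorem ang_eq {a b : E3} (ha : ‖a‖ = 1) (hb : ‖b‖ = 1) :
    ang a b = InnerProductGeometry.angle a b := by
  unfold ang InnerProductGeometry.angle
  rw [ha, hb]; simp

theorem ang_tri {a b c : E3} (ha : ‖a‖ = 1) (hb : ‖b‖ = 1) (hc : ‖c‖ = 1) :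
    ang a c ≤ ang a b + ang b c := by
  rw [ang_eq ha hc, ang_eq ha hb, ang_eq hb hc]
  exact InnerProductGeometry.angle_le_angle_add_angle a b c

theorem ang_nonneg (a b : E3) : 0 ≤ ang a b := Real.arccos_nonneg _

theorem ang_le_pi (a b : E3) : ang a b ≤ Real.pi := Real.arccos_le_pi _

theorem ang_comm (a b : E3) : ang a b = ang b a := by
  unfold ang; rw [real_inner_comm]

theorem ang_self {a : E3} (ha : ‖a‖ = 1) : ang a a = 0 := by
  unfold ang; rw [real_inner_self_eq_norm_sq, ha]; simp

theorem cos_ang {a b : E3} (ha : ‖a‖ = 1) (hb : ‖b‖ = 1) : Real.cos (ang a b) = ⟪a, b⟫ := by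
  unfold ang
  have h := abs_real_inner_le_norm a b
  rw [ha, hb, mul_one, abs_le] at h
  exact Real.cos_arccos h.1 h.2

/-- a path is at least as long as the distance of its ends. -/
theorem ang_path {v : ℕ → E3} (hv : ∀ i, ‖v i‖ = 1) {i j : ℕ} (hij : i ≤ j) :
    ang (v i) (v j) ≤ ∑ k ∈ Finset.range j, ang (v k) (v (k + 1))
      - ∑ k ∈ Finset.range i, ang (v k) (v (k + 1)) := by
  induction j, hij using Nat.le_induction with
  | base => rw [ang_self (hv i)]; simp
  | succ m hm ih =>
    rw [Finset.sum_range_succ]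
    have := ang_tri (hv i) (hv m) (hv (m + 1))
    linarith

/-- a point on the arc from u to v at distance s from u. -/
theorem exists_between {u v : E3} (hu : ‖u‖ = 1) (hv : ‖v‖ = 1) (ht : ang u v < Real.pi)
    {s : ℝ} (hs : 0 ≤ s) (hst : s ≤ ang u v) :
    ∃ w : E3, ‖w‖ = 1 ∧ ang u w = s ∧ ang w v = ang u v - s := by
  set t := ang u v with htdef
  rcases eq_or_lt_of_le (ang_nonneg u v) with h0 | h0
  · have hs0 : s = 0 := le_antisymm (by linarith) hs
    refine ⟨u, hu, ?_, ?_⟩
    · rw [ang_self hu, hs0]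
    · rw [hs0, sub_zero]
  · have hsin : 0 < Real.sin t := Real.sin_pos_of_pos_of_lt_pi h0 ht
    have huu : ⟪u, u⟫ = (1 : ℝ) := by rw [real_inner_self_eq_norm_sq, hu]; norm_num
    have hvv : ⟪v, v⟫ = (1 : ℝ) := by rw [real_inner_self_eq_norm_sq, hv]; norm_num
    have huv : ⟪u, v⟫ = Real.cos t := (cos_ang hu hv).symm
    have hvu : ⟪v, u⟫ = Real.cos t := by rw [real_inner_comm]; exact huv
    have hcs := Real.sin_sq_add_cos_sq t
    set w : E3 := (Real.sin (t - s) / Real.sin t) • u + (Real.sin s / Real.sin t) • v with hw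
    have hwu : ⟪w, u⟫ = Real.cos s := by
      rw [hw, inner_add_left, real_inner_smul_left, real_inner_smul_left, huu, hvu,
        Real.sin_sub]
      field_simp
      ring
    have hwv : ⟪w, v⟫ = Real.cos (t - s) := by
      rw [hw, inner_add_left, real_inner_smul_left, real_inner_smul_left, hvv, huv,
        Real.sin_sub, Real.cos_sub]
      field_simp
      linear_combination (-(Real.sin s)) * hcs
    have hww : ⟪w, w⟫ = (1 : ℝ) := by
      have e : ⟪w, w⟫ = (Real.sin (t - s) / Real.sin t) * ⟪w, u⟫
          + (Real.sin s / Real.sin t) * ⟪w, v⟫ := by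
        conv_lhs => rw [show ⟪w, w⟫ = ⟪w, (Real.sin (t - s) / Real.sin t) • u
          + (Real.sin s / Real.sin t) • v⟫ from rfl]
        rw [inner_add_right, real_inner_smul_right, real_inner_smul_right]
      rw [e, hwu, hwv]
      have h1 : Real.sin t = Real.sin (t - s) * Real.cos s + Real.cos (t - s) * Real.sin s := by
        rw [← Real.sin_add]; congr 1; ring
      rw [div_mul_eq_mul_div, div_mul_eq_mul_div, ← add_div, div_eq_one_iff_eq hsin.ne']
      linear_combination -h1
    have hw1 : ‖w‖ = 1 := by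
      rw [real_inner_self_eq_norm_sq] at hww
      nlinarith [norm_nonneg w, hww]
    refine ⟨w, hw1, ?_, ?_⟩
    · unfold ang; rw [real_inner_comm, hwu]
      exact Real.arccos_cos hs (by linarith)
    · unfold ang; rw [hwv]
      exact Real.arccos_cos (by linarith) (by linarith)

theorem st_HEMIQ : ST_HEMIQ := by
  intro n v hv hcl hL
  set S : ℕ → ℝ := fun m => ∑ k ∈ Finset.range m, ang (v k) (v (k + 1)) with hS
  set L : ℝ := S n with hLd
  have hLpi : L < 2 * Real.pi := hL
  have hpath : ∀ i j, i ≤ j → ang (v i) (v j) ≤ S j - S i := fun i j h => ang_path hv h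
  have hmono : ∀ i j, i ≤ j → S i ≤ S j := fun i j h => by
    have := hpath i j h; have := ang_nonneg (v i) (v j); linarith
  have hS0 : S 0 = 0 := by simp [hS]
  have hL0 : 0 ≤ L := by rw [← hS0]; exact hmono 0 n (Nat.zero_le _)
  -- the middle point
  have hmid : ∃ w : E3, ‖w‖ = 1 ∧ ∀ i ≤ n, ang (v 0) (v i) + ang (v i) w ≤ L / 2 := by
    rcases Nat.eq_zero_or_pos n with hn | hn
    · refine ⟨v 0, hv 0, ?_⟩
      intro i hi
      have hi0 : i = 0 := by omega
      rw [hi0, ang_self (hv 0)]; linarith
    · have hex : ∃ j, j < n ∧ S j ≤ L / 2 ∧ L / 2 ≤ S (j + 1) := by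
        by_contra hne
        push Not at hne
        have hall : ∀ j, j ≤ n → S j ≤ L / 2 := by
          intro j
          induction j with
          | zero => intro _; rw [hS0]; linarith
          | succ m ih =>
            intro hm
            exact (hne m (by omega) (ih (by omega))).le
        have hlast := hne (n - 1) (by omega) (hall (n - 1) (by omega))
        rw [Nat.sub_add_cancel hn] at hlast
        linarith
      obtain ⟨j, hjn, hj1, hj2⟩ := hex
      have hstep : S (j + 1) = S j + ang (v j) (v (j + 1)) := Finset.sum_range_succ _ _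
      have htl : ang (v j) (v (j + 1)) < Real.pi := by
        have h1 := ang_tri (hv j) (hv 0) (hv (j + 1))
        have h2 := hpath 0 j (Nat.zero_le _)
        have h3 := hpath (j + 1) n (by omega)
        rw [hcl] at h3
        rw [ang_comm (v j) (v 0), ang_comm (v 0) (v (j + 1))] at h1
        linarith
      obtain ⟨w, hw, hw1, hw2⟩ := exists_between (hv j) (hv (j + 1)) htl
        (s := L / 2 - S j) (by linarith) (by linarith)
      refine ⟨w, hw, ?_⟩
      intro i hi
      rcases Nat.lt_or_ge j i with h | h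
      · have h1 := hpath i n hi
        rw [hcl, ang_comm] at h1
        have h2 := hpath (j + 1) i h
        have h3 := ang_tri (hv i) (hv (j + 1)) hw
        rw [ang_comm (v i) (v (j + 1)), ang_comm (v (j + 1)) w] at h3
        linarith
      · have h1 := hpath 0 i (Nat.zero_le _)
        have h2 := hpath i j h
        have h3 := ang_tri (hv i) (hv j) hw
        linarith
  obtain ⟨w, hw, hwi⟩ := hmid
  have hpos : ∀ i ≤ n, 0 < ⟪v 0 + w, v i⟫ := by
    intro i hi
    have h := hwi i hi
    have ha := ang_nonneg (v 0) (v i)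
    have hb := ang_nonneg (v i) w
    have hlt : ang (v i) w < Real.pi - ang (v 0) (v i) := by linarith
    have hc := Real.cos_lt_cos_of_nonneg_of_le_pi hb (by linarith) hlt
    rw [Real.cos_pi_sub, cos_ang (hv 0) (hv i), cos_ang (hv i) hw] at hc
    rw [inner_add_left, real_inner_comm (v i) w]
    linarith
  have hne : v 0 + w ≠ 0 := by
    intro h0
    have := hpos 0 (Nat.zero_le _)
    rw [h0, inner_zero_left] at this
    exact lt_irrefl _ this
  have hnp : 0 < ‖v 0 + w‖ := norm_pos_iff.mpr hne
  refine ⟨(‖v 0 + w‖)⁻¹ • (v 0 + w), ?_, ?_⟩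
  · rw [norm_smul, norm_inv, norm_norm, inv_mul_cancel₀ hnp.ne']
  · intro i hi
    rw [real_inner_smul_left]
    exact mul_pos (inv_pos.mpr hnp) (hpos i hi)

end Pool.Agent.Helper27.N9
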