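import Pool.Agent.Helper93.N9.Gap1
import Pool.Agent.Helper27.N9.Fan1

/-! MP_9b91d1_co, row LH: the hub theorem for a lune of opening less than pi. -/

open scoped RealInnerProductSpace Topology

namespace Pool.Agent.Helper30.N9

namespace H27

/-- going down a meridian: the direction of the normal -/
theorem down_pos {r a : E3} (ha : ‖a‖ = 1) (hr : ‖r‖ = 1) (har : ⟪a, r⟫ = 0) {x y : E3}
    (hx : ‖x‖ = 1) (hy : ‖y‖ = 1) (hne : x ≠ -y) (h1 : OnR a r x) (h2 : OnR a r y)
    (hh : ⟪a, y⟫ < ⟪a, x⟫) : ∃ D : ℝ, 0 < D ∧ crs x y = D • crs a r := by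
  obtain ⟨c1, hc1, e1⟩ := h1
  obtain ⟨c2, hc2, e2⟩ := h2
  obtain ⟨s1, hs1⟩ : ∃ s1, s1 = ⟪a, x⟫ := ⟨_, rfl⟩
  obtain ⟨s2, hs2⟩ : ∃ s2, s2 = ⟪a, y⟫ := ⟨_, rfl⟩
  rw [← hs1] at e1 hh
  rw [← hs2] at e2 hh
  have haa : ⟪a, a⟫ = (1 : ℝ) := inner_self_one ha
  have hrr : ⟪r, r⟫ = (1 : ℝ) := inner_self_one hr
  have hra : ⟪r, a⟫ = 0 := by rw [real_inner_comm]; exact har
  have n1 : c1 ^ 2 + s1 ^ 2 = 1 := by
    have := inner_self_one hx
    rw [e1] at this
    simp only [inner_add_left, inner_add_right, real_inner_smul_left, real_inner_smul_right] at this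
    rw [haa, hrr, hra, har] at this
    linarith
  have n2 : c2 ^ 2 + s2 ^ 2 = 1 := by
    have := inner_self_one hy
    rw [e2] at this
    simp only [inner_add_left, inner_add_right, real_inner_smul_left, real_inner_smul_right] at this
    rw [haa, hrr, hra, har] at this
    linarith
  refine ⟨s1 * c2 - c1 * s2, ?_, ?_⟩
  · have hid : (s1 - s2) * (c1 + c2) = (1 - s1 * s2 + c1 * c2) * (s1 * c2 - c1 * s2) := by
      linear_combination (s2 * c2) * n1 - (s1 * c1) * n2
    have hc : 0 < c1 + c2 := by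
      rcases lt_or_eq_of_le hc1 with h | h
      · linarith
      · rcases lt_or_eq_of_le hc2 with h' | h'
        · linarith
        · exfalso
          apply hne
          rw [← h] at n1 e1
          rw [← h'] at n2 e2
          have m1 : (s1 - s2) * (s1 + s2) = 0 := by linarith
          have m2 : s1 + s2 = 0 := by
            rcases mul_eq_zero.mp m1 with h'' | h''
            · linarith
            · exact h''
          rw [e1, e2, zero_smul, zero_add, zero_add, ← neg_smul]
          congr 1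
          linarith
    have h3 : 0 < (1 - s1 * s2 + c1 * c2) * (s1 * c2 - c1 * s2) := by
      rw [← hid]; apply mul_pos _ hc; linarith
    have h4 : 0 ≤ 1 - s1 * s2 + c1 * c2 := by
      have : 0 ≤ c1 * c2 := mul_nonneg hc1 hc2
      nlinarith [sq_nonneg (s1 - s2), sq_nonneg (s1 + s2), sq_nonneg c1, sq_nonneg c2]
    by_contra hneg
    push Not at hneg
    have := mul_nonpos_of_nonneg_of_nonpos h4 hneg
    linarith
  · rw [e1, e2]
    exact H93.crs_comb2 _ _ _ _ _ _

section
variable {V : Type} [Fintype V] [DecidableEq V] {M : PlaneGraph V} {L : Type} {p : V → E3}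
  {a : E3} {l : M.Face → L} {s t : V} {k : ℕ} {th : ℕ → ℝ} {r : ℕ → E3} {lam : ℕ → L}

theorem rk (hL : M.FanL p a l s t k th r lam) : r k = r 0 := by
  have := hL.rr k le_rfl
  rw [hL.thk, Real.cos_two_pi, Real.sin_two_pi, one_smul, zero_smul, add_zero] at this
  exact this

theorem ar (_ha : ‖a‖ = 1) (hL : M.FanL p a l s t k th r lam) {i : ℕ} (hi : i ≤ k) :
    ⟪a, r i⟫ = 0 := by
  rw [hL.rr i hi, inner_add_right, real_inner_smul_right, real_inner_smul_right, hL.ar0,
    real_inner_comm, crs_inner]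
  simp only [det3]; ring

theorem rn (ha : ‖a‖ = 1) (hL : M.FanL p a l s t k th r lam) {i : ℕ} (hi : i ≤ k) :
    ‖r i‖ = 1 := by
  rw [norm_one_iff, H93.FanL.inner_rr ha hL hi hi, sub_self, Real.cos_zero]

/-- boundary darts of a lune -/
theorem bd_cases (F : M.Fan p a l s t) (hL : M.FanL p a l s t k th r lam) {i : ℕ} (hi : i < k)
    {d : M.G.Dart} (hd : M.Bd (fun w => l w = lam i) d) :
    (OnR a (r i) (p d.fst) ∧ OnR a (r i) (p d.snd) ∧ ⟪a, p d.snd⟫ < ⟪a, p d.fst⟫) ∨
    (OnR a (r (i + 1)) (p d.fst) ∧ OnR a (r (i + 1)) (p d.snd) ∧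
      ⟪a, p d.fst⟫ < ⟪a, p d.snd⟫) := by
  have hE : M.E0 l d := by
    intro h
    exact hd.2 (show l (M.fc d.symm) = lam i from h.symm.trans hd.1)
  obtain ⟨j, hj, h1, h2, h3⟩ := hL.ray d hE
  have hdi : l (M.fc d) = lam i := hd.1
  rcases h3 with ⟨h4, h5, _⟩ | ⟨h4, h5, _⟩
  · left
    have hr : r (j + 1) = r i := by
      by_cases hjk : j + 1 < k
      · rw [hL.lami _ hjk _ hi (h5.symm.trans hdi)]
      · have e : j + 1 = k := by omega
        have h2k := H93.FanL.two_le hL
        have e0 : lam 0 = lam i := by rw [← hL.lamk, ← e, ← h5, hdi]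
        have ei := hL.lami 0 (by omega) i hi e0
        rw [e, rk hL, ei]
    rw [hr] at h1 h2
    exact ⟨h1, h2, h4⟩
  · right
    have e := hL.lami _ hj _ hi (h5.symm.trans hdi)
    rw [e] at h1 h2
    exact ⟨h1, h2, h4⟩

/-- a boundary dart on the right meridian r i (going down from s) -/
theorem ex_bd_down (hL : M.FanL p a l s t k th r lam) {i : ℕ} (hi : i < k) :
    ∃ d : M.G.Dart, M.Bd (fun w => l w = lam i) d ∧ d.fst = s ∧ OnR a (r i) (p d.snd) := by
  have h2k := H93.FanL.two_le hL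
  rcases Nat.eq_zero_or_pos i with h0 | h0
  · obtain ⟨d, h1, h2, h3, h4⟩ := hL.top (k - 1) (by omega)
    have e : k - 1 + 1 = k := by omega
    rw [e] at h2 h3
    refine ⟨d, ⟨?_, ?_⟩, h1, ?_⟩
    · show l (M.fc d) = lam i
      rw [h3, hL.lamk, h0]
    · show ¬ l (M.fc d.symm) = lam i
      rw [h4, h0, ← hL.lamk]
      have := H93.FanL.lam_ne hL (i := k - 1) (by omega)
      rw [e] at this
      exact this.symm
    · rw [h0, ← rk hL]; exact h2
  · obtain ⟨d, h1, h2, h3, h4⟩ := hL.top (i - 1) (by omega)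
    have e : i - 1 + 1 = i := by omega
    rw [e] at h2 h3
    refine ⟨d, ⟨h3, ?_⟩, h1, h2⟩
    show ¬ l (M.fc d.symm) = lam i
    rw [h4]
    have := H93.FanL.lam_ne hL (i := i - 1) (by omega)
    rw [e] at this
    exact this.symm

/-- a boundary dart on the left meridian r (i+1) (going up to s) -/
theorem ex_bd_up (hL : M.FanL p a l s t k th r lam) {i : ℕ} (hi : i < k) :
    ∃ d : M.G.Dart, M.Bd (fun w => l w = lam i) d ∧ d.snd = s ∧
      OnR a (r (i + 1)) (p d.fst) := by
  obtain ⟨d, h1, h2, h3, h4⟩ := hL.top i hi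
  refine ⟨d.symm, ⟨h4, ?_⟩, h1, h2⟩
  show ¬ l (M.fc d.symm.symm) = lam i
  rw [SimpleGraph.Dart.symm_symm, h3]
  exact H93.FanL.lam_ne hL hi

theorem onR_axis (a r : E3) (ha : ‖a‖ = 1) : OnR a r a :=
  ⟨0, le_rfl, by rw [zero_smul, zero_add, inner_self_one ha, one_smul]⟩

end

end H27

open H27 H93 in
theorem st_LH (hH : ST_HUBF) (hP : ST_POTF) : ST_LH := by
  intro V _ _ M L p q h h' a l s t k th r lam om hSp hSq hlm hle F hL hSw i hi hgap hin m hm
    hmb hcov
  classical
  have hp := hSp.inc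
  have ha := F.ua
  have hgpos := hL.thl i hi
  have hsin : 0 < Real.sin (th (i + 1) - th i) :=
    Real.sin_pos_of_pos_of_lt_pi (by linarith) (by linarith)
  have hri : ‖r i‖ = 1 := rn ha hL hi.le
  have hri1 : ‖r (i + 1)‖ = 1 := rn ha hL hi
  have har : ⟪a, r i⟫ = 0 := ar ha hL hi.le
  have har1 : ⟪a, r (i + 1)⟫ = 0 := ar ha hL hi
  have hd1 : det3 a (r i) (r (i + 1)) = Real.sin (th (i + 1) - th i) :=
    FanL.det_rr ha hL hi.le hi
  obtain ⟨S, hS⟩ : ∃ S, S = r i + r (i + 1) := ⟨_, rfl⟩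
  have hdS1 : det3 a (r i) S = Real.sin (th (i + 1) - th i) := by
    rw [hS, det3_add_right, hd1]; simp only [det3]; ring
  have hdS2 : det3 a (r (i + 1)) S = - Real.sin (th (i + 1) - th i) := by
    rw [hS, det3_add_right, ← hd1]; simp only [det3]; ring
  have hS0 : S ≠ 0 := by
    intro h0
    rw [h0] at hdS1
    have : det3 a (r i) 0 = 0 := by simp [det3]
    rw [this] at hdS1
    linarith
  have hSn : 0 < ‖S‖⁻¹ := inv_pos.mpr (norm_pos_iff.mpr hS0)
  have hbd : ∀ d, M.Bd (fun w => l w = lam i) d →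
      (∃ D : ℝ, 0 < D ∧ crs (p d.fst) (p d.snd) = D • crs a (r i)) ∨
      (∃ D : ℝ, 0 < D ∧ crs (p d.fst) (p d.snd) = (-D) • crs a (r (i + 1))) := by
    intro d hd
    rcases bd_cases F hL hi hd with ⟨h1, h2, h3⟩ | ⟨h1, h2, h3⟩
    · left
      exact down_pos ha hri har (hp.unit _) (hp.unit _) (hp.ne_neg d) h1 h2 h3
    · right
      obtain ⟨D, hD, hc⟩ := down_pos ha hri1 har1 (hp.unit _) (hp.unit _)
        (hp.ne_neg d.symm) h2 h1 h3
      refine ⟨D, hD, ?_⟩
      rw [crs_swap (p d.snd), show crs (p d.snd) (p d.fst) = D • crs a (r (i + 1)) from hc,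
        neg_smul]
  obtain ⟨om', hom'⟩ : ∃ om' : M.G.Dart → ℝ,
      om' = fun d => if M.InD (fun w => l w = lam i) d then om d else 0 := ⟨_, rfl⟩
  have hom1 : ∀ d, M.InD (fun w => l w = lam i) d → om' d = om d := by
    intro d hd; rw [hom']; simp only [if_pos hd]
  have hom2 : ∀ d, ¬ M.InD (fun w => l w = lam i) d → om' d = 0 := by
    intro d hd; rw [hom']; simp only [if_neg hd]
  have hsy : ∀ d, M.InD (fun w => l w = lam i) d.symm ↔ M.InD (fun w => l w = lam i) d := by
    intro d
    unfold PlaneGraph.InD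
    rw [SimpleGraph.Dart.symm_symm]
    exact and_comm
  have hW : M.Wt om' := by
    refine ⟨fun d => ?_, fun d => ?_⟩
    · by_cases hd : M.InD (fun w => l w = lam i) d
      · rw [hom1 d hd]; exact hSw.wt.nonneg d
      · rw [hom2 d hd]
    · by_cases hd : M.InD (fun w => l w = lam i) d
      · rw [hom1 d hd, hom1 d.symm ((hsy d).mpr hd)]; exact hSw.wt.symm d
      · rw [hom2 d hd, hom2 d.symm (fun h => hd ((hsy d).mp h))]
  obtain ⟨d0, hd0, hd0o, hd0m⟩ := hin
  have hrotT : ∀ v, M.InV (fun w => l w = lam i) v → ∀ d : M.G.Dart, d.fst = v →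
      M.InD (fun w => l w = lam i) d := by
    intro v hv d hd
    refine ⟨hv d hd, ?_⟩
    have h1 := hv (M.nxt d.symm) (by rw [M.nxt_fst]; exact hd)
    have h2 : M.fc (M.nxt d.symm) = M.fc d.symm := M.fc_nxt d.symm
    rw [h2] at h1
    exact h1
  obtain ⟨R, _, hR1, hR2, _⟩ := hH V M p q h h' hSp hSq hlm hle (fun w => l w = lam i) om'
    (nrm S) m hW ⟨d0, by rw [hom1 d0 hd0]; exact hd0o⟩
    (by
      intro d hd
      by_contra hcon
      exact hd (hom2 d hcon))
    (by
      intro v hv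
      have h1 : ¬ M.OnE l v := by
        rintro ⟨d, hd, hE⟩
        have := hrotT v hv d hd
        exact hE (this.1.trans this.2.symm)
      have h2 := hSw.eq v h1
      unfold PlaneGraph.EqAt at h2 ⊢
      rw [← h2]
      apply Finset.sum_congr rfl
      intro d hd
      rw [hom1 d (hrotT v hv d (by simpa using hd))])
    (hP V M L p h a l s t hSp F (lam i) (by
      obtain ⟨d, hd, _⟩ := ex_bd_up hL hi
      exact ⟨_, hd.1⟩))
    (by
      obtain ⟨d, hd, _⟩ := ex_bd_up hL hi
      exact ⟨d, hd⟩)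
    (by
      intro d e hd he
      exact F.cvx d e (fun h0 => hd.2 (show l (M.fc d.symm) = lam i from h0.symm.trans hd.1))
        (by
          have h1 : l (M.fc d) = lam i := hd.1
          have h2 : l (M.fc e) = lam i := he
          rw [h1, h2]))
    (norm_nrm hS0) hm
    (by
      intro d hd
      have h0 : det3 (nrm S) (p d.fst) (p d.snd) = ‖S‖⁻¹ * ⟪crs (p d.fst) (p d.snd), S⟫ := by
        rw [crs_inner, ← det3_nrm]
        simp only [det3]; ring
      rw [h0]
      apply mul_pos hSn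
      rcases hbd d hd with ⟨D, hD, hc⟩ | ⟨D, hD, hc⟩
      · rw [hc, real_inner_smul_left, crs_inner, hdS1]
        exact mul_pos hD hsin
      · rw [hc, real_inner_smul_left, crs_inner, hdS2]
        have := mul_pos hD hsin
        linarith)
    (by rw [hS]; exact hmb)
    (by
      intro y hy1 hy2
      have g1 : ⟪crs a (r i), y⟫ = 0 := by
        obtain ⟨d, hd, hds, hdr⟩ := ex_bd_down hL hi
        have h1 := hy1 d hd
        rw [← crs_inner] at h1
        have hps : p d.fst = a := by rw [hds, F.ps]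
        have hlt : ⟪a, p d.snd⟫ < ⟪a, p d.fst⟫ := by
          rw [hps, inner_self_one ha]
          apply inner_lt_one ha (hp.unit _)
          rw [← hps]; exact qne hp d
        obtain ⟨D, hD, hc⟩ := down_pos ha hri har (hp.unit _) (hp.unit _) (hp.ne_neg d)
          (by rw [hps]; exact onR_axis a _ ha) hdr hlt
        rw [hc, real_inner_smul_left] at h1
        rcases mul_eq_zero.mp h1 with h2 | h2
        · exact absurd h2 hD.ne'
        · exact h2
      have g2 : ⟪crs a (r (i + 1)), y⟫ = 0 := by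
        obtain ⟨d, hd, hds, hdr⟩ := ex_bd_up hL hi
        have h1 := hy1 d hd
        have hps : p d.snd = a := by rw [hds, F.ps]
        have hlt : ⟪a, p d.fst⟫ < ⟪a, p d.snd⟫ := by
          rw [hps, inner_self_one ha]
          apply inner_lt_one ha (hp.unit _)
          rw [← hps]; exact (qne hp d).symm
        obtain ⟨D, hD, hc⟩ := down_pos ha hri1 har1 (hp.unit _) (hp.unit _)
          (hp.ne_neg d.symm) (by
            show OnR a (r (i + 1)) (p d.snd)
            rw [hps]; exact onR_axis a _ ha) hdr hlt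
        have hc' : crs (p d.snd) (p d.fst) = D • crs a (r (i + 1)) := hc
        have h3 : det3 (p d.snd) (p d.fst) y = 0 := by
          have : det3 (p d.snd) (p d.fst) y = - det3 (p d.fst) (p d.snd) y := by
            simp only [det3]; ring
          rw [this, h1, neg_zero]
        rw [← crs_inner, hc', real_inner_smul_left] at h3
        rcases mul_eq_zero.mp h3 with h2 | h2
        · exact absurd h2 hD.ne'
        · exact h2
      have hcc : crs (crs a (r i)) (crs a (r (i + 1)))
          = Real.sin (th (i + 1) - th i) • a := by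
        rw [crs_crs_axis, hd1]
      have hcc0 : crs (crs a (r i)) (crs a (r (i + 1))) ≠ 0 := by
        rw [hcc]
        intro h0
        rcases smul_eq_zero.mp h0 with h1 | h1
        · exact hsin.ne' h1
        · rw [h1, norm_zero] at ha
          norm_num at ha
      obtain ⟨μ, hμ⟩ : ∃ μ : ℝ, y = μ • a := by
        have := par_of_crs hcc0 g1 g2
        rw [hcc, smul_smul] at this
        exact ⟨_, this⟩
      have h1 := hy2 d0 (by rw [hom1 d0 hd0]; exact hd0o)
      rw [hμ, det3_smul_right, det3_rot] at h1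
      rcases mul_eq_zero.mp h1 with h2 | h2
      · rw [hμ, h2, zero_smul]
      · exact absurd h2 hd0m)
    hcov
  intro d hd
  rw [← hS, hR2 d hd, ← hR1, LinearIsometryEquiv.inner_map_map, inner_neg_left]

end Pool.Agent.Helper30.N9
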