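import Pool.Agent.Helper30.N9.Sheet3

/-! MP_9b91d1_co, rows XC1, XC2, XC3: the cell is to the left of its boundary darts, arcs of a
cell lie in N, at most one outgoing boundary dart at every vertex. -/

open scoped RealInnerProductSpace Topology

namespace Pool.Agent.Helper27.N9

open Pool.Agent.Helper30.N9 Pool.Agent.Helper30.N9.Cx

section

variable {U D C : Type} [Fintype U] [DecidableEq U] [Fintype D] [DecidableEq D]
    [Fintype C] [DecidableEq C] {X : Cx U D C} {T : Set C} {N : Set E3}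

theorem cell_smul (h : X.Cell T N) {y : E3} (hy : y ∈ N) {t : ℝ} (ht : 0 ≤ t) : t • y ∈ N := by
  have := h.cvx y hy y hy t 0 ht le_rfl
  rwa [zero_smul, add_zero] at this

theorem nrm_mem_iff (h : X.Cell T N) {y : E3} (hy : y ≠ 0) : nrm y ∈ N ↔ y ∈ N := by
  have hn : 0 < ‖y‖ := norm_pos_iff.mpr hy
  constructor
  · intro h1
    have h2 := cell_smul h h1 hn.le
    unfold nrm at h2
    rwa [smul_smul, mul_inv_cancel₀ hn.ne', one_smul] at h2
  · intro h1
    exact cell_smul h h1 (inv_nonneg.mpr hn.le)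

/-- left points of a dart of T are in N -/
theorem left_in (h : X.Cell T N) {d : D} (hd : X.left d ∈ T) {x : E3}
    (hx : x ∈ arc (X.qa d) (X.qb d)) (hx1 : x ≠ X.qa d) (hx2 : x ≠ X.qb d) :
    ∀ᶠ y in 𝓝 x, 0 < det3 (X.qa d) (X.qb d) y → y ∈ N := by
  have h0 : ∀ᶠ y in 𝓝 x, y ≠ 0 := isOpen_ne.mem_nhds (ne_zero_of_unit hx.1)
  filter_upwards [h0, edge_left d hx hx1 hx2] with y hy0 hy hdet
  have := hy hdet
  exact (nrm_mem_iff h hy0).mp ((h.reg _ (norm_nrm hy0) this.1).mp ⟨_, hd, this.2⟩)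

/-- right points of a boundary dart are not in N -/
theorem right_out (h : X.Cell T N) {d : D} (hd : X.left (X.rev d) ∉ T) {x : E3}
    (hx : x ∈ arc (X.qa d) (X.qb d)) (hx1 : x ≠ X.qa d) (hx2 : x ≠ X.qb d) :
    ∀ᶠ y in 𝓝 x, det3 (X.qa d) (X.qb d) y < 0 → y ∉ N := by
  have h0 : ∀ᶠ y in 𝓝 x, y ≠ 0 := isOpen_ne.mem_nhds (ne_zero_of_unit hx.1)
  filter_upwards [h0, edge_right d hx hx1 hx2] with y hy0 hy hdet hmem
  have h1 := hy hdet
  obtain ⟨c, hc, hc1⟩ := (h.reg _ (norm_nrm hy0) h1.1).mpr ((nrm_mem_iff h hy0).mpr hmem)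
  by_cases hcc : c = X.left (X.rev d)
  · rw [hcc] at hc; exact hd hc
  · have := w_unique (norm_nrm hy0) h1.1 h1.2 c hcc
    rw [hc1] at this
    norm_num at this

/-- interior points of the arcs of T are in N -/
theorem mid_in (h : X.Cell T N) {d : D} (hd : X.left d ∈ T) {x : E3}
    (hx : x ∈ arc (X.qa d) (X.qb d)) (hx1 : x ≠ X.qa d) (hx2 : x ≠ X.qb d) : x ∈ N := by
  rw [← h.closed.closure_eq, mem_closure_iff_nhds]
  intro U' hU
  obtain ⟨y, hy, hdet, _⟩ := exists_left_pt d hx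
    (Filter.inter_mem hU (left_in h hd hx hx1 hx2))
  exact ⟨y, hy.1, hy.2 hdet⟩

/-- the first end point -/
theorem end_in (h : X.Cell T N) {a b : E3} (ha : ‖a‖ = 1) (hb : ‖b‖ = 1) (n1 : a ≠ b)
    (n2 : a ≠ -b) (hN : ∀ x ∈ arc a b, x ≠ a → x ≠ b → x ∈ N) : a ∈ N := by
  have hlim : Filter.Tendsto (fun t : ℝ => a + t • b) (𝓝[>] 0) (𝓝 a) := by
    have hc : ContinuousAt (fun t : ℝ => a + t • b) 0 := by fun_prop
    have := hc.tendsto
    rw [zero_smul, add_zero] at this
    exact this.mono_left nhdsWithin_le_nhds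
  refine h.closed.mem_of_tendsto hlim ?_
  have hev : ∀ᶠ t : ℝ in 𝓝[>] 0, 0 < t := self_mem_nhdsWithin
  filter_upwards [hev] with t ht
  obtain ⟨p0, p1, p2, p3⟩ := pt_props ha hb n1 n2 ht
  exact (nrm_mem_iff h p0).mp (hN _ p1 p2 p3)

theorem arc_in (h : X.Cell T N) {d : D} (hd : X.left d ∈ T) :
    arc (X.qa d) (X.qb d) ⊆ N := by
  have ha : X.qa d ∈ N := end_in h (X.unit _) (X.unit _) (qne d) (X.nn d)
    (fun x hx h1 h2 => mid_in h hd hx h1 h2)
  have hb : X.qb d ∈ N := end_in h (X.unit _) (X.unit _) (qne d).symm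
    (fun h' => X.nn d (show X.qa d = - X.qb d by
      have h'' : X.qb d = - X.qa d := h'
      rw [h'', neg_neg]))
    (fun x hx h1 h2 => mid_in h hd (by rw [arc_comm]; exact hx) h2 h1)
  rintro x ⟨_, s, t, hs, ht, rfl⟩
  exact h.cvx _ ha _ hb s t hs ht

theorem left_of (h : X.Cell T N) {d : D} (hd : d ∈ X.bd T) {y : E3} (hy : y ∈ N) :
    0 ≤ det3 (X.qa d) (X.qb d) y := by
  have hd' : X.left d ∈ T ∧ X.left (X.rev d) ∉ T := by
    have := hd
    unfold Cx.bd at this
    simpa using this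
  by_contra hneg
  push Not at hneg
  obtain ⟨x, hx, hx1, hx2⟩ := exists_mid (X := X) d
  have hxN : x ∈ N := arc_in h hd'.1 hx
  have hdx : det3 (X.qa d) (X.qb d) x = 0 := by
    by_contra hcon
    have := not_mem_arc_of_det hcon
    rw [nrm_unit hx.1] at this
    exact this hx
  have hlim : Filter.Tendsto (fun t : ℝ => x + t • y) (𝓝[>] 0) (𝓝 x) := by
    have hc : ContinuousAt (fun t : ℝ => x + t • y) 0 := by fun_prop
    have := hc.tendsto
    rw [zero_smul, add_zero] at this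
    exact this.mono_left nhdsWithin_le_nhds
  have hev : ∀ᶠ t : ℝ in 𝓝[>] 0, 0 < t := self_mem_nhdsWithin
  obtain ⟨t, ht, ht0⟩ := ((hlim.eventually (right_out h hd'.2 hx hx1 hx2)).and hev).exists
  have hdet : det3 (X.qa d) (X.qb d) (x + t • y) < 0 := by
    rw [det3_add_right, det3_smul_right, hdx]
    have := mul_pos_of_neg_of_neg hneg (neg_neg_of_pos ht0)
    nlinarith
  refine ht hdet ?_
  have := h.cvx x hxN y hy 1 t zero_le_one ht0.le
  rwa [one_smul] at this

theorem fst_inj (h : X.Cell T N) {d e : D} (hd : d ∈ X.bd T) (he : e ∈ X.bd T)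
    (hf : X.fst d = X.fst e) : d = e := by
  have hd' : X.left d ∈ T ∧ X.left (X.rev d) ∉ T := by
    have := hd
    unfold Cx.bd at this
    simpa using this
  have he' : X.left e ∈ T ∧ X.left (X.rev e) ∉ T := by
    have := he
    unfold Cx.bd at this
    simpa using this
  by_contra hne
  have hae : X.qa e = X.qa d := by unfold Cx.qa; rw [hf]
  have ha1 : ‖X.qa d‖ = 1 := X.unit _
  have hb1 : ‖X.qb d‖ = 1 := X.unit _
  have hb1' : ‖X.qb e‖ = 1 := X.unit _
  have hdN : X.qb d ∈ N := arc_in h hd'.1 (right_mem_arc hb1)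
  have heN : X.qb e ∈ N := arc_in h he'.1 (right_mem_arc hb1')
  have hnn : X.qa d ≠ - X.qb d := X.nn d
  have hnn' : X.qa d ≠ - X.qb e := by rw [← hae]; exact X.nn e
  have hq' : X.qa d ≠ X.qb e := by rw [← hae]; exact qne e
  have h1 : 0 ≤ det3 (X.qa d) (X.qb d) (X.qb e) := left_of h hd heN
  have h2 : 0 ≤ det3 (X.qa d) (X.qb e) (X.qb d) := by
    have := left_of h he hdN
    rwa [hae] at this
  rw [det3_swap] at h2
  have h0 : det3 (X.qa d) (X.qb d) (X.qb e) = 0 := le_antisymm (by linarith) h1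
  obtain ⟨α, β, hw⟩ : ∃ α β : ℝ, X.qb e = α • X.qa d + β • X.qb d :=
    ⟨_, _, span_det ha1 hb1 (qne d) hnn h0⟩
  rcases lt_trichotomy β 0 with hβ | hβ | hβ
  · -- opposite direction: N is contained in a plane
    obtain ⟨x, hx, hx1, hx2⟩ := exists_mid (X := X) d
    obtain ⟨y, hy, hdet, _⟩ := exists_left_pt d hx (left_in h hd'.1 hx hx1 hx2)
    have hyN : y ∈ N := hy hdet
    have h3 := left_of h he hyN
    rw [hae, hw] at h3
    have h4 : det3 (X.qa d) (α • X.qa d + β • X.qb d) y = β * det3 (X.qa d) (X.qb d) y := by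
      simp only [det3, PiLp.add_apply, PiLp.smul_apply, smul_eq_mul]; ring
    rw [h4] at h3
    have := mul_neg_of_neg_of_pos hβ hdet
    linarith
  · rw [hβ, zero_smul, add_zero] at hw
    have h3 : |α| = 1 := by
      have := congrArg norm hw
      rw [norm_smul, ha1, hb1', mul_one, Real.norm_eq_abs] at this
      exact this.symm
    rcases (abs_eq zero_le_one).mp h3 with h4 | h4
    · rw [h4, one_smul] at hw
      exact hq' hw.symm
    · rw [h4, neg_smul, one_smul] at hw
      apply hnn'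
      rw [hw, neg_neg]
  · -- overlapping arcs
    obtain ⟨t, ht, ht1⟩ : ∃ t : ℝ, 0 < t ∧ 0 < 1 + t * α := by
      refine ⟨1 / (1 + |α|), by positivity, ?_⟩
      have h5 : 0 < 1 + |α| := by positivity
      have h6 : -(|α|) ≤ α := neg_abs_le α
      have h7 : 1 + 1 / (1 + |α|) * α = (1 + |α| + α) / (1 + |α|) := by
        field_simp
      rw [h7]
      apply div_pos _ h5
      linarith
    obtain ⟨p0, p1, p2, p3⟩ := pt_props ha1 hb1' hq' hnn' ht
    have hτ : 0 < t * β / (1 + t * α) := by positivity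
    obtain ⟨r0, r1, r2, r3⟩ := pt_props ha1 hb1 (qne d) hnn hτ
    have heq : X.qa d + t • X.qb e
        = (1 + t * α) • (X.qa d + (t * β / (1 + t * α)) • X.qb d) := by
      rw [hw, smul_add, smul_add, smul_smul, smul_smul, smul_smul,
        mul_div_cancel₀ _ ht1.ne', add_smul, one_smul, ← add_assoc]
    have hn : nrm (X.qa d + t • X.qb e) = nrm (X.qa d + (t * β / (1 + t * α)) • X.qb d) := by
      rw [heq, nrm_smul ht1]
    rw [hn] at p1
    have hed : e ≠ X.rev d := by
      intro h'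
      have : X.fst e = X.snd d := by rw [h', X.fst_rev]
      rw [← hf] at this
      exact X.ne d this
    have p1' : nrm (X.qa d + (t * β / (1 + t * α)) • X.qb d) ∈ arc (X.qa e) (X.qb e) := by
      rw [hae]; exact p1
    rcases X.embed d e (Ne.symm hne) hed _ r1 p1' with h' | h'
    · exact r2 h'
    · exact r3 h'

end

theorem st_XC1 : ST_XC1 := by
  intro U D C _ _ _ _ _ _ X T N h d hd y hy
  exact left_of h hd hy

theorem st_XC2 : ST_XC2 := by
  intro U D C _ _ _ _ _ _ X T N h d hd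
  exact arc_in h hd

theorem st_XC3 : ST_XC3 := by
  intro U D C _ _ _ _ _ _ X T N h d hd e he hf
  exact fst_inj h hd he hf

end Pool.Agent.Helper27.N9
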